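import Pool.Agent.Q161.Bes.Tur

/-!
# Minima of the Turán ratio for Bessel functions

For `ν > 0` the ratio `Φ = Δ / J_ν²`, `Δ = J_ν² - J_{ν-1} J_{ν+1}`, has exactly one critical
point between two consecutive positive zeros of `J_ν`, and the critical values increase strictly,
starting above `1/(ν+1)`.

With `Y = x J_ν'/J_ν` and `S = x² Φ = x² - ν² + Y²` one has `Y' = -S/x`, `Φ' = 2T/x³`,
`T = x² - S(1+Y)`, and `T' = S²/x > 0` wherever `T = 0`.  At a critical point `Φ = 1/(1+Y)` and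
`x² = ν²/Y + ν² - Y - Y²`, a decreasing function of `Y`.
-/

open Set Filter Topology

namespace Pool.Agent.Results.MP_f30c32_an.TuranMinima

open Pool.Agent.Q161.Bes

/-- The Turán determinant `Δ_ν(x) = J_ν(x)² - J_{ν-1}(x) J_{ν+1}(x)`. -/
noncomputable def Delta (ν x : ℝ) : ℝ :=
  besselJ ν x ^ 2 - besselJ (ν - 1) x * besselJ (ν + 1) x

/-- The Turán ratio `Φ_ν = Δ_ν / J_ν²`. -/
noncomputable def Phi (ν x : ℝ) : ℝ := Delta ν x / besselJ ν x ^ 2

lemma contJ {ν : ℝ} (hν : 0 < ν) : Continuous (besselJ ν) := by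
  have h1 : Continuous (fun x : ℝ => (x / 2) ^ ν) :=
    (continuous_id.div_const 2).rpow_const (fun _ => Or.inr hν.le)
  have h2 : Continuous (fun x : ℝ => G ν (x ^ 2 / 4)) :=
    continuous_iff_continuousAt.2 fun x => (Gx (ν := ν) (by linarith) x).continuousAt
  exact h1.mul h2

lemma J_zero {ν : ℝ} (hν : 0 < ν) : besselJ ν 0 = 0 := by
  unfold besselJ
  rw [zero_div, Real.zero_rpow hν.ne', zero_mul]

lemma sys {ν : ℝ} (hν : 0 < ν) : Sys ν (besselJ ν) (U ν) := by
  refine ⟨fun x hx => J_deriv (by linarith) hx, fun x hx => U_deriv (by linarith) hx, ?_⟩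
  set s : ℝ → ℝ := fun x => (x ^ 2 - ν ^ 2) * besselJ ν x ^ 2 + U ν x ^ 2 with hs
  have hd : ∀ x, 0 < x → HasDerivAt s (2 * x * besselJ ν x ^ 2) x := by
    intro x hx
    have h1 := (((hasDerivAt_pow 2 x).sub_const (ν ^ 2)).mul
      ((J_deriv (ν := ν) (by linarith) hx).pow 2)).add ((U_deriv (ν := ν) (by linarith) hx).pow 2)
    refine HasDerivAt.congr_deriv (f := s) h1 ?_
    simp only [Pi.pow_apply]
    push_cast
    field_simp
    ring
  have hc : Continuous s := by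
    have h1 := contJ hν
    have h2 := contJ (ν := ν + 1) (by linarith)
    have h3 : Continuous (U ν) := (h1.const_mul ν).sub (continuous_id.mul h2)
    fun_prop
  have h0 : s 0 = 0 := by
    simp only [hs, U, J_zero hν]
    simp
  have hmono : MonotoneOn s (Ici 0) := by
    apply monotoneOn_of_deriv_nonneg (convex_Ici 0) hc.continuousOn
    · intro x hx
      rw [interior_Ici] at hx
      exact (hd x hx).differentiableAt.differentiableWithinAt
    · intro x hx
      rw [interior_Ici] at hx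
      have hx' : 0 < x := hx
      rw [(hd x hx).deriv]
      positivity
  have hstr : StrictMonoOn s (Icc 0 1) := by
    apply strictMonoOn_of_deriv_pos (convex_Icc 0 1) hc.continuousOn
    intro x hx
    rw [interior_Icc] at hx
    rw [(hd x hx.1).deriv]
    have := J_pos hν hx.1 hx.2.le
    have hx0 := hx.1
    positivity
  intro x hx
  have hm : 0 < min x 1 := lt_min hx one_pos
  have h1 : s 0 < s (min x 1) := hstr (by simp) ⟨hm.le, min_le_right _ _⟩ hm
  have h2 : s (min x 1) ≤ s x := hmono hm.le hx.le (min_le_left _ _)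
  have h3 : s x = (x ^ 2 - ν ^ 2) * besselJ ν x ^ 2 + U ν x ^ 2 := rfl
  rw [← h3]
  linarith

lemma Phi_eq {ν : ℝ} (hν : 0 < ν) {x : ℝ} (hx : 0 < x) (hJ : besselJ ν x ≠ 0) :
    Phi ν x = S ν (besselJ ν) (U ν) x / x ^ 2 := by
  unfold Phi Delta S Y
  rw [J_succ hx, J_pred hν hx]
  field_simp
  ring

lemma Phi_deriv {ν : ℝ} (hν : 0 < ν) {x : ℝ} (hx : 0 < x) (hJ : besselJ ν x ≠ 0) :
    HasDerivAt (Phi ν) (2 / x ^ 3 * T ν (besselJ ν) (U ν) x) x := by
  refine ((sys hν).dPhi hx hJ).congr_of_eventuallyEq ?_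
  have h1 : ∀ᶠ y in 𝓝 x, besselJ ν y ≠ 0 := (contJ hν).continuousAt.eventually_ne hJ
  filter_upwards [h1, Ioi_mem_nhds hx] with y hy1 hy2
  exact Phi_eq hν hy2 hy1

/-- For every `ν > 0`: the positive zeros of `J_ν` form a strictly increasing sequence
`j 0 < j 1 < ⋯`; the Turán ratio `Φ_ν` is differentiable on each `(j n, j (n+1))` and its derivative
vanishes at exactly one point `α n` of this interval; and
`1/(ν+1) < Φ_ν(α 0) < Φ_ν(α 1) < ⋯`. -/
theorem result (ν : ℝ) (hν : 0 < ν) :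
    ∃ j : ℕ → ℝ, StrictMono j ∧ range j = {x | 0 < x ∧ besselJ ν x = 0} ∧
      (∀ n, DifferentiableOn ℝ (Phi ν) (Ioo (j n) (j (n + 1)))) ∧
      ∃ α : ℕ → ℝ, (∀ n, {x | x ∈ Ioo (j n) (j (n + 1)) ∧ deriv (Phi ν) x = 0} = {α n}) ∧
        1 / (ν + 1) < Phi ν (α 0) ∧ StrictMono (fun n => Phi ν (α n)) := by
  have hsys := sys hν
  obtain ⟨j, hmono, hrange, -, hgap⟩ := enum {x | 0 < x ∧ besselJ ν x = 0} (fun z hz => hz.1)
    (fun R => by
      obtain ⟨z, h1, h2, h3⟩ := hsys.zeros_unbdd R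
      exact ⟨z, ⟨h2, h3⟩, h1⟩)
    (fun R => by
      refine (hsys.zeros_fin (δ := 1) one_pos R).subset ?_
      rintro z ⟨⟨hz0, hz⟩, hzR⟩
      refine ⟨hz, ?_, hzR⟩
      by_contra hcon
      exact (J_pos hν hz0 (le_of_lt (not_le.1 hcon))).ne' hz)
  have hZ : ∀ n, 0 < j n ∧ besselJ ν (j n) = 0 := fun n => by
    have : j n ∈ range j := ⟨n, rfl⟩
    rw [hrange] at this
    exact this
  have hj1 : ∀ n, 1 ≤ j n := by
    intro n
    by_contra hcon
    exact (J_pos hν (hZ n).1 (le_of_lt (not_le.1 hcon))).ne' (hZ n).2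
  have hpos : ∀ n, ∀ x ∈ Ioo (j n) (j (n + 1)), 0 < x := fun n x hx => (hZ n).1.trans hx.1
  have hne : ∀ n, ∀ x ∈ Ioo (j n) (j (n + 1)), besselJ ν x ≠ 0 := fun n x hx h0 =>
    hgap n x hx ⟨hpos n x hx, h0⟩
  have hex : ∀ n, ∃ c ∈ Ioo (j n) (j (n + 1)), T ν (besselJ ν) (U ν) c = 0 := fun n =>
    hsys.exist (hZ n).1 (hmono n.lt_succ_self) (hZ n).2 (hZ (n + 1)).2 (hne n)
  choose α hα hTα using hex
  have hder : ∀ n, ∀ x ∈ Ioo (j n) (j (n + 1)),
      deriv (Phi ν) x = 2 / x ^ 3 * T ν (besselJ ν) (U ν) x := fun n x hx =>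
    (Phi_deriv hν (hpos n x hx) (hne n x hx)).deriv
  have hcrit := fun n => hsys.crit hν (x := α n)
    (by have := hj1 n; have := (hα n).1; linarith) (hne n _ (hα n)) (hTα n)
  have hval : ∀ n, Phi ν (α n) = 1 / (1 + Y (besselJ ν) (U ν) (α n)) := fun n => by
    rw [Phi_eq hν (hpos n _ (hα n)) (hne n _ (hα n))]
    exact (hcrit n).2.2.1
  refine ⟨j, hmono, hrange, fun n x hx =>
    (Phi_deriv hν (hpos n x hx) (hne n x hx)).differentiableAt.differentiableWithinAt,
    α, ?_, ?_, ?_⟩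
  · intro n
    ext x
    simp only [mem_ofPred_eq, mem_singleton_iff]
    constructor
    · rintro ⟨hx, hdx⟩
      rw [hder n x hx] at hdx
      have hx0 := hpos n x hx
      have hT : T ν (besselJ ν) (U ν) x = 0 := by
        rcases mul_eq_zero.1 hdx with h' | h'
        · exact absurd h' (by positivity)
        · exact h'
      exact hsys.uniq (hZ n).1.le (hne n) hx (hα n) hT (hTα n)
    · rintro rfl
      refine ⟨hα n, ?_⟩
      rw [hder n _ (hα n), hTα n, mul_zero]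
  · rw [hval 0]
    obtain ⟨h1, h2, -, -⟩ := hcrit 0
    apply one_div_lt_one_div_of_lt <;> linarith
  · refine strictMono_nat_of_lt_succ fun n => ?_
    rw [hval n, hval (n + 1)]
    exact Sys.mono_crit (hpos n _ (hα n)) ((hα n).2.trans (hα (n + 1)).1) (hcrit n).1
      (hcrit (n + 1)).1 (hcrit n).2.2.2 (hcrit (n + 1)).2.2.2

end Pool.Agent.Results.MP_f30c32_an.TuranMinima
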